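import Pool.Agent.Helper31.DV.Defs

/-! Project DV: there are no such data. -/

set_option autoImplicit false

universe u

namespace Pool.Agent.Helper31.DV

open Pool.Agent.Helper73.DU (Ex)

variable {P : Type u} [PartialOrder P]

/-- the order dual -/
def Dat.dual (T : Dat P) : Dat Pᵒᵈ where
  f := T.f
  s := T.s
  D := T.U
  U := T.D
  be := T.cc
  cc := T.be
  bb := fun x w => T.bb w x
  wf := T.wg
  wg := T.wf
  nle := T.nge
  nge := T.nle
  cov := fun y => (T.cov y).symm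
  dis := fun x hx hx' => T.dis x hx' hx
  bs := T.cs
  bw := T.cx
  bm := fun v hv w hw h => T.cm w hw v hv h
  cs := T.bs
  cx := T.bw
  cm := fun v hv w hw h => T.bm w hw v hv h
  b1 := fun x hx w hw h => T.b4 w hw x hx h
  b2 := fun x hx w hw h => T.b3 w hw x hx h
  b3 := fun x hx w hw h => T.b2 w hw x hx h
  b4 := fun x hx w hw h => T.b1 w hw x hx h
  b5 := fun x hx v hv w hw h1 h2 => T.b6 x hx w hw v hv h1 h2
  b6 := fun w hw x hx y hy h1 h2 => T.b5 w hw y hy x hx h1 h2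
  n1 := fun a ha a' ha' a'' ha'' c hc c' hc' h1 h2 h3 h4 h5 h6 =>
    T.n2 c' hc' c hc a'' ha'' a' ha' a ha h4 h3 h2 h1 h6 h5
  n2 := fun a ha a' ha' c hc c' hc' c'' hc'' h1 h2 h3 h4 h5 h6 =>
    T.n1 c'' hc'' c' hc' c hc a' ha' a ha h4 h3 h2 h1 h6 h5

theorem Ex.uniq {Q : Type u} {U D : Set Q} {a : Q → Q} (hd : ∀ x ∈ D, x ∈ U → False) {v d : Q}
    (h : Ex U D a v d) : ∀ {e : Q}, Ex U D a v e → d = e := by
  induction h with
  | one h1 h2 =>
    intro e h
    cases h with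
    | one _ _ => rfl
    | step g1 g2 g3 => exact (hd _ h2 g2).elim
  | step h1 h2 _ ih =>
    intro e h
    cases h with
    | one g1 g2 => exact (hd _ g2 h2).elim
    | step g1 g2 g3 => exact ih g3

theorem Ex.elim' {Q : Type u} {U D : Set Q} {a : Q → Q} {v d : Q} (h : Ex U D a v d) :
    (a v ∈ D ∧ d = a v) ∨ (a v ∈ U ∧ Ex U D a (a v) d) := by
  cases h with
  | one _ h2 => exact Or.inl ⟨h2, rfl⟩
  | step _ h2 h3 => exact Or.inr ⟨h2, h3⟩

/-- the orbit of `v` under `be` leaves `U` at `d` -/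
abbrev Dat.ExD (T : Dat P) (v d : P) : Prop := Ex T.U T.D T.be v d

/-- the orbit of `d` under `cc` leaves `D` at `Y` -/
abbrev Dat.ExU (T : Dat P) (d Y : P) : Prop := Ex T.D T.U T.cc d Y

theorem Dat.uniqD (T : Dat P) {v d e : P} (h : T.ExD v d) (h' : T.ExD v e) : d = e :=
  Ex.uniq T.dis h h'

theorem Dat.uniqU (T : Dat P) {v d e : P} (h : T.ExU v d) (h' : T.ExU v e) : d = e :=
  Ex.uniq (fun x h1 h2 => T.dis x h2 h1) h h'

theorem Dat.ne (T : Dat P) {d w : P} (hd : d ∈ T.D) (hw : w ∈ T.U) : d ≠ w := by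
  intro h
  exact T.dis d hd (h ▸ hw)

theorem Dat.be_ne (T : Dat P) {v : P} (hv : v ∈ T.U) : T.be v ≠ v := by
  intro h
  apply T.nle v
  have h1 := T.bw v hv
  rwa [h] at h1

theorem Dat.exit_le (T : Dat P) {v d : P} (h : T.ExD v d) : T.be v ≤ v →
    d ≤ T.be v ∧ ∃ u ∈ T.U, u ≤ v ∧ T.be u = d := by
  induction h with
  | @one v h1 h2 =>
    intro _
    exact ⟨le_rfl, v, h1, le_rfl, rfl⟩
  | @step v d h1 h2 _ ih =>
    intro h
    have h3 : T.be (T.be v) ≤ T.be v := T.bm _ h2 _ h1 h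
    obtain ⟨i1, u, i2, i3, i4⟩ := ih h3
    exact ⟨i1.trans h3, u, i2, i3.trans h, i4⟩

theorem Dat.exit_le_s (T : Dat P) {v d : P} (h : T.ExD v d) (h' : T.be v ≤ v) : d ≤ T.s := by
  obtain ⟨-, u, hu, -, he⟩ := T.exit_le h h'
  rw [← he]
  exact T.bs u hu

theorem Dat.exit_lt (T : Dat P) {v d : P} (h : T.ExD v d) (h' : T.be v ≤ v) : d < v :=
  lt_of_le_of_lt (T.exit_le h h').1 (lt_of_le_of_ne h' (T.be_ne h.memU))

theorem Dat.exists_exit (T : Dat P) : ∀ v : P, v ∈ T.U → T.be v ≤ v → ∃ d, T.ExD v d := by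
  intro v
  induction v using T.wf.induction with
  | _ v ih =>
    intro hv h
    have hlt : T.be v < v := lt_of_le_of_ne h (T.be_ne hv)
    rcases T.cov (T.be v) with hD | hU
    · exact ⟨T.be v, Ex.one hv hD⟩
    · obtain ⟨d, hd⟩ := ih (T.be v) hlt hU (T.bm _ hU _ hv h)
      exact ⟨d, Ex.step hv hU hd⟩

theorem Dat.cmp (T : Dat P) {v d : P} (h : T.ExD v d) : ∀ {w e : P}, T.ExD w e → w ≤ v →
    T.be v ≤ w → d ≤ e ∨ e ≤ d := by
  induction h with
  | @one v h1 h2 =>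
    intro w e hw h3 h4
    right
    have h5 : T.be w ≤ T.be v := T.bm _ hw.memU _ h1 h3
    exact (T.exit_le hw (h5.trans h4)).1.trans h5
  | @step v d h1 h2 hvd ih =>
    intro w e hw h3 h4
    have hwU : w ∈ T.U := hw.memU
    have h5 : T.be w ≤ T.be v := T.bm _ hwU _ h1 h3
    have h6 : T.be (T.be v) ≤ T.be w := T.bm _ h2 _ hwU h4
    cases hw with
    | one g1 g2 =>
      left
      exact (T.exit_le hvd (h6.trans h5)).1.trans h6
    | step g1 g2 g3 => exact ih g3 h5 h6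

theorem Dat.bb_ne_x (T : Dat P) {x w : P} (hx : x ∈ T.D) (hw : w ∈ T.U) (h : x < w) :
    T.bb x w ≠ x := by
  intro he
  apply T.nge x
  have h2 := T.b2 x hx w hw h
  rwa [he] at h2

theorem Dat.bb_ne_w (T : Dat P) {x w : P} (hx : x ∈ T.D) (hw : w ∈ T.U) (h : x < w) :
    T.bb x w ≠ w := by
  intro he
  apply T.nle w
  have h2 := T.b3 x hx w hw h
  rwa [he] at h2

theorem Dat.lt_bb (T : Dat P) {d v : P} (hd : d ∈ T.D) (hdv : d < v) (h : T.ExD v d)
    (ha : T.be v ≤ v) : d < T.bb d v := by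
  have hv : v ∈ T.U := h.memU
  obtain ⟨-, u, hu, huv, hud⟩ := T.exit_le h ha
  refine lt_of_le_of_ne ?_ (T.bb_ne_x hd hv hdv).symm
  have h1 : T.be u ≤ T.bb d v := (T.bm u hu v hv huv).trans (T.b1 d hd v hv hdv)
  rwa [hud] at h1

/-- the middle lemma -/
theorem Dat.mid (T : Dat P) {a a' z c c' : P} (ha : a ∈ T.D) (ha' : a' ∈ T.D) (hc : c ∈ T.U)
    (hc' : c' ∈ T.U) (h1 : a < a') (h2 : a' < z) (h3 : z < c) (h4 : c < c') (h5 : a ≤ T.s)
    (h6 : T.s ≤ c') : False := by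
  rcases T.cov z with hz | hz
  · exact T.n1 a ha a' ha' z hz c hc c' hc' h1 h2 h3 h4 h5 h6
  · exact T.n2 a ha a' ha' z hz c hc c' hc' h1 h2 h3 h4 h5 h6

/-- the descent -/
theorem Dat.descent (T : Dat P) {d : P} (hd : d ∈ T.D) (hds : d ≤ T.s) : ∀ v : P, v ∈ T.U →
    (∀ a ∈ T.D, ∀ a' ∈ T.D, ∀ w ∈ T.U, a < a' → a' < w → w ≤ v → a ≤ T.s → False) →
    d < v → T.be v ≤ v → T.bb d v ≤ v → (∀ e, T.ExD v e → d ≤ e ∨ e ≤ d) → False := by
  intro v
  induction v using T.wf.induction with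
  | _ v ih =>
    intro hv H hdv ha hm hcmp
    obtain ⟨e, he⟩ := T.exists_exit v hv ha
    have hev : e < v := T.exit_lt he ha
    have hes : e ≤ T.s := T.exit_le_s he ha
    have hed : d = e := by
      by_contra hne
      rcases hcmp e he with h | h
      · exact H d hd e he.memD v hv (lt_of_le_of_ne h hne) hev le_rfl hds
      · exact H e he.memD d hd v hv (lt_of_le_of_ne h (Ne.symm hne)) hdv le_rfl hes
    subst hed
    have h1 : d < T.bb d v := T.lt_bb hd hdv he ha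
    have h2 : T.bb d v < v := lt_of_le_of_ne hm (T.bb_ne_w hd hv hdv)
    have h4 : T.be v ≤ T.bb d v := T.b1 d hd v hv hdv
    rcases T.cov (T.bb d v) with hD | hU
    · exact H d hd _ hD v hv h1 h2 le_rfl hds
    · refine ih _ h2 hU ?_ h1 ((T.bm _ hU v hv hm).trans h4) (T.b5 d hd _ hU v hv h1 hm) ?_
      · intro a ha1 a' ha2 w hw g1 g2 g3 g4
        exact H a ha1 a' ha2 w hw g1 g2 (g3.trans hm) g4
      · intro e' he'
        exact T.cmp he he' hm h4

structure Dat.Pair (T : Dat P) (d Y : P) : Prop where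
  ds : d ≤ T.s
  sY : T.s ≤ Y
  lt : d < Y
  ex : T.ExD Y d
  ex' : T.ExU d Y

theorem Dat.Pair.dual {T : Dat P} {d Y : P} (h : T.Pair d Y) : T.dual.Pair Y d :=
  ⟨h.sY, h.ds, h.lt, h.ex', h.ex⟩

/-- Lemma `L1` -/
theorem Dat.zero (T : Dat P) {e Y : P} (heD : e ∈ T.D) (hY : Y ∈ T.U) (hes : e ≤ T.s)
    (hsY : T.s ≤ Y) (heY : e < Y) (hvU : T.bb e Y ∈ T.U) (hvY : T.bb e Y < Y)
    (hev : e < T.bb e Y) (huD : T.bb e (T.bb e Y) ∈ T.D) (heu : e < T.bb e (T.bb e Y))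
    (huv : T.bb e (T.bb e Y) < T.bb e Y) (hX : T.ExU e Y) : False := by
  set v := T.bb e Y with hv
  set u := T.bb e v with hu
  have huY : u < Y := huv.trans hvY
  have hce : v ≤ T.cc e := T.b4 e heD Y hY heY
  have hcu : T.cc e ≤ T.cc u := T.cm e heD u huD heu.le
  have huc : u ≤ T.cc u := (huv.le.trans hce).trans hcu
  have hsc : T.s ≤ T.cc u := T.cs u huD
  obtain ⟨Z, hZ⟩ : ∃ Z : P, T.ExU u Z := T.dual.exists_exit u huD huc
  have hZU : Z ∈ T.U := hZ.memD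
  have hcZ : T.cc u ≤ Z := (T.dual.exit_le hZ huc).1
  have hvZ : v ≤ Z := (hce.trans hcu).trans hcZ
  have hcomp : Z ≤ Y ∨ Y ≤ Z := by
    rcases T.dual.cmp (v := e) (w := u) hX hZ heu.le
      (show u ≤ T.cc e from huv.le.trans hce) with h | h
    · exact Or.inl h
    · exact Or.inr h
  have hZY : Z = Y := by
    by_contra hne
    rcases eq_or_lt_of_le hvZ with h | h
    · have h2 : T.cc e = v := le_antisymm ((hcu.trans hcZ).trans h.ge) hce
      have h3 : T.ExU e (T.cc e) := Ex.one heD (by rw [h2]; exact hvU)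
      have h4 := T.uniqU h3 hX
      exact hne (by rw [← h, ← h2, h4])
    · rcases hcomp with h2 | h2
      · exact T.n2 e heD u huD v hvU Z hZU Y hY heu huv h (lt_of_le_of_ne h2 hne) hes hsY
      · exact T.n2 e heD u huD v hvU Y hY Z hZU heu huv hvY (lt_of_le_of_ne h2 (Ne.symm hne)) hes
          (hsc.trans hcZ)
  subst hZY
  have hvy : v ≤ T.bb u Z := T.b6 Z hY e heD u huD huY heu.le
  have hyc : T.bb u Z ≤ T.cc u := T.b4 u huD Z hY huY
  have hyY : T.bb u Z < Z := lt_of_le_of_ne (hyc.trans hcZ) (T.bb_ne_w huD hY huY)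
  rcases eq_or_lt_of_le hvy with h | h
  · have h1 : T.bb u v ≤ v := by
      have := T.b5 u huD v hvU Z hY huv hvY.le
      rwa [← h] at this
    have h2 : u ≤ T.bb u v := T.b6 v hvU e heD u huD huv heu.le
    exact T.mid heD huD hvU hY heu (lt_of_le_of_ne h2 (T.bb_ne_x huD hvU huv).symm)
      (lt_of_le_of_ne h1 (T.bb_ne_w huD hvU huv)) hvY hes hsY
  · rcases T.cov (T.bb u Z) with hD | hU
    · have huy : u ≤ T.bb u Z := huv.le.trans h.le
      refine T.dual.descent (d := Z) hY hsY (T.bb u Z) hD ?_ hyY ?_ ?_ ?_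
      · intro c hc c' hc' w hw g1 g2 g3 g4
        exact T.n2 e heD u huD v hvU c' hc' c hc heu huv
          (lt_of_lt_of_le h (le_trans (show T.bb u Z ≤ w from g3) (le_of_lt g2)))
          g1 hes g4
      · exact hyc.trans (T.cm u huD _ hD huy)
      · exact T.b6 Z hY u huD _ hD hyY huy
      · intro e' he'
        exact T.dual.cmp (v := u) (w := T.bb u Z) hZ he' huy hyc
    · exact T.n2 e heD u huD v hvU _ hU Z hY heu huv h hyY hes hsY

end Pool.Agent.Helper31.DV
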