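import Pool.Agent.Helper73.DU.NoInf

/-! Project DV: the data of a monotone map without fixed point when there are no chains
`D < D < D < U < U` and `D < D < U < U < U` with lowest point `≤ s` and highest point `≥ s`. -/

set_option autoImplicit false

universe u

namespace Pool.Agent.Helper31.DV

structure Dat (P : Type u) [PartialOrder P] where
  f : P → P
  s : P
  D : Set P
  U : Set P
  be : P → P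
  cc : P → P
  bb : P → P → P
  wf : WellFounded (fun a b : P => a < b)
  wg : WellFounded (fun a b : P => b < a)
  nle : ∀ x, ¬ x ≤ f x
  nge : ∀ x, ¬ f x ≤ x
  cov : ∀ y, y ∈ D ∨ y ∈ U
  dis : ∀ x ∈ D, x ∈ U → False
  bs : ∀ w ∈ U, be w ≤ s
  bw : ∀ w ∈ U, be w ≤ f w
  bm : ∀ v ∈ U, ∀ w ∈ U, v ≤ w → be v ≤ be w
  cs : ∀ x ∈ D, s ≤ cc x
  cx : ∀ x ∈ D, f x ≤ cc x
  cm : ∀ x ∈ D, ∀ y ∈ D, x ≤ y → cc x ≤ cc y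
  b1 : ∀ x ∈ D, ∀ w ∈ U, x < w → be w ≤ bb x w
  b2 : ∀ x ∈ D, ∀ w ∈ U, x < w → f x ≤ bb x w
  b3 : ∀ x ∈ D, ∀ w ∈ U, x < w → bb x w ≤ f w
  b4 : ∀ x ∈ D, ∀ w ∈ U, x < w → bb x w ≤ cc x
  b5 : ∀ x ∈ D, ∀ v ∈ U, ∀ w ∈ U, x < v → v ≤ w → bb x v ≤ bb x w
  b6 : ∀ w ∈ U, ∀ x ∈ D, ∀ y ∈ D, y < w → x ≤ y → bb x w ≤ bb y w
  n1 : ∀ a ∈ D, ∀ a' ∈ D, ∀ a'' ∈ D, ∀ c ∈ U, ∀ c' ∈ U, a < a' → a' < a'' → a'' < c → c < c' →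
    a ≤ s → s ≤ c' → False
  n2 : ∀ a ∈ D, ∀ a' ∈ D, ∀ c ∈ U, ∀ c' ∈ U, ∀ c'' ∈ U, a < a' → a' < c → c < c' → c' < c'' →
    a ≤ s → s ≤ c'' → False

end Pool.Agent.Helper31.DV
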