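import Pool.Agent.Helper31.DV.Core

/-! Project DV: there are no such data. -/

set_option autoImplicit false

universe u

namespace Pool.Agent.Helper31.DV

open Pool.Agent.Helper73.DU (Ex)

variable {P : Type u} [PartialOrder P]

/-- a core pair with upper middle point -/
theorem Dat.key (T : Dat P) {d Y : P} (hp : T.Pair d Y) (hvU : T.bb d Y ∈ T.U) :
    ∃ e : P, e ∈ T.D ∧ e < d ∧ d < T.bb d Y ∧ T.bb d Y < Y ∧ T.Pair e (T.bb d Y) ∧
      T.bb e (T.bb d Y) ∈ T.D ∧ e < T.bb e (T.bb d Y) ∧ T.bb e (T.bb d Y) < T.bb d Y ∧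
      T.bb d (T.bb d Y) = T.bb e (T.bb d Y) := by
  obtain ⟨hds, hsY, hdY, hex, hex'⟩ := hp
  have hd : d ∈ T.D := hex.memD
  have hY : Y ∈ T.U := hex.memU
  have haY : T.be Y ≤ Y := (T.bs Y hY).trans hsY
  have hcd : d ≤ T.cc d := hds.trans (T.cs d hd)
  have hdv : d < T.bb d Y := T.lt_bb hd hdY hex haY
  have hcY : T.cc d ≤ Y := (T.dual.exit_le hex' hcd).1
  have hvc : T.bb d Y ≤ T.cc d := T.b4 d hd Y hY hdY
  have hvY : T.bb d Y < Y := lt_of_le_of_ne (hvc.trans hcY) (T.bb_ne_w hd hY hdY)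
  have hbYv : T.be Y ≤ T.bb d Y := T.b1 d hd Y hY hdY
  set v := T.bb d Y with hv
  have hbvY : T.be v ≤ T.be Y := T.bm v hvU Y hY hvY.le
  have hav : T.be v ≤ v := hbvY.trans hbYv
  obtain ⟨e, he⟩ := T.exists_exit v hvU hav
  have heD : e ∈ T.D := he.memD
  have hes : e ≤ T.s := T.exit_le_s he hav
  have hev : e < v := T.exit_lt he hav
  have hebv : e ≤ T.be v := (T.exit_le he hav).1
  have hbv : T.be v < v := lt_of_le_of_ne hav (T.be_ne hvU)
  have hcmp := T.cmp hex he hvY.le hbYv
  rcases eq_or_ne d e with hde | hde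
  · -- case 1
    exfalso
    subst hde
    have h1 : d < T.bb d v := T.lt_bb hd hdv he hav
    have h2 : T.bb d v ≤ v := T.b5 d hd v hvU Y hY hdv hvY.le
    have h3 : T.bb d v < v := lt_of_le_of_ne h2 (T.bb_ne_w hd hvU hdv)
    have h4 : T.be v ≤ T.bb d v := T.b1 d hd v hvU hdv
    rcases T.cov (T.bb d v) with hD | hU
    · exact T.zero hd hY hds hsY hdY hvU hvY hdv hD h1 h3 hex'
    · refine T.descent hd hds (T.bb d v) hU ?_ h1 ((T.bm _ hU v hvU h2).trans h4)
        (T.b5 d hd _ hU v hvU h1 h2) ?_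
      · intro a ha a' ha' w hw g1 g2 g3 g4
        exact T.n2 a ha a' ha' w hw v hvU Y hY g1 g2 (lt_of_le_of_lt g3 h3) hvY g4 hsY
      · intro e' he'
        exact T.cmp he he' h2 h4
  · rcases hcmp with hc | hc
    · -- case 2a
      exfalso
      have hlt : d < e := lt_of_le_of_ne hc hde
      have hbY : T.be v = e := by
        rcases Ex.elim' he with ⟨h1, h2⟩ | ⟨h1, h2⟩
        · exact h2.symm
        · exfalso
          exact T.n2 d hd e heD _ h1 v hvU Y hY hlt (lt_of_le_of_ne hebv (T.ne heD h1)) hbv hvY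
            hds hsY
      have h3 : e ≤ T.be Y := hbY ▸ hbvY
      rcases Ex.elim' hex with ⟨h1, h2⟩ | ⟨h1, h2⟩
      · rw [← h2] at h3
        exact absurd (lt_of_lt_of_le hlt h3) (lt_irrefl _)
      · rcases eq_or_lt_of_le hbYv with h4 | h4
        · rw [h4] at h2
          exact hde (T.uniqD h2 he)
        · exact T.n2 d hd e heD _ h1 v hvU Y hY hlt (lt_of_le_of_ne h3 (T.ne heD h1)) h4 hvY
            hds hsY
    · -- case 2b
      have hlt : e < d := lt_of_le_of_ne hc (Ne.symm hde)
      have heY : e < Y := hlt.trans hdY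
      have hbYd : T.be Y = d := by
        rcases Ex.elim' hex with ⟨h1, h2⟩ | ⟨h1, h2⟩
        · exact h2.symm
        · exfalso
          rcases eq_or_lt_of_le hbYv with h4 | h4
          · rw [h4] at h2
            exact hde (T.uniqD h2 he)
          · exact T.n2 e heD d hd _ h1 v hvU Y hY hlt
              (lt_of_le_of_ne (T.exit_le hex haY).1 (T.ne hd h1)) h4 hvY hes hsY
      have ht1 : d ≤ T.bb e Y := by
        have := T.b1 e heD Y hY heY
        rwa [hbYd] at this
      have ht2 : T.bb e Y ≤ v := T.b6 Y hY e heD d hd hdY hlt.le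
      have hu1 : e < T.bb e v := T.lt_bb heD hev he hav
      have hbu : T.be v ≤ T.bb e v := T.b1 e heD v hvU hev
      have hp1 : T.bb e v ≤ T.bb d v := T.b6 v hvU e heD d hd hdv hlt.le
      have hp2 : T.bb d v ≤ v := T.b5 d hd v hvU Y hY hdv hvY.le
      have hp3 : T.bb d v < v := lt_of_le_of_ne hp2 (T.bb_ne_w hd hvU hdv)
      rcases eq_or_lt_of_le ht1 with ht | ht
      · -- t = d
        exfalso
        have hud : T.bb e v ≤ d := by
          have := T.b5 e heD v hvU Y hY hev hvY.le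
          rwa [← ht] at this
        rcases eq_or_lt_of_le hud with h1 | h1
        · rw [h1] at hp1
          exact T.mid heD hd hvU hY hlt (lt_of_le_of_ne hp1 (T.bb_ne_x hd hvU hdv).symm) hp3 hvY
            hes hsY
        · rcases T.cov (T.bb e v) with hD | hU
          · exact T.n1 e heD _ hD d hd v hvU Y hY hu1 h1 hdv hvY hes hsY
          · have h2 : T.bb e v ≤ v := h1.le.trans hdv.le
            refine T.descent heD hes (T.bb e v) hU ?_ hu1 ((T.bm _ hU v hvU h2).trans hbu)
              (T.b5 e heD _ hU v hvU hu1 h2) ?_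
            · intro a ha a' ha' w hw g1 g2 g3 g4
              exact T.n1 a ha a' ha' d hd v hvU Y hY g1 (g2.trans (lt_of_le_of_lt g3 h1)) hdv hvY
                g4 hsY
            · intro e' he'
              exact T.cmp he he' h2 hbu
      · rcases eq_or_lt_of_le ht2 with ht' | ht'
        · -- t = v
          have h2 : T.bb e v ≤ v := hp1.trans hp2
          have h3 : T.bb e v < v := lt_of_le_of_lt hp1 hp3
          have huD : T.bb e v ∈ T.D := by
            rcases T.cov (T.bb e v) with hD | hU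
            · exact hD
            · exfalso
              refine T.descent heD hes (T.bb e v) hU ?_ hu1 ((T.bm _ hU v hvU h2).trans hbu)
                (T.b5 e heD _ hU v hvU hu1 h2) ?_
              · intro a ha a' ha' w hw g1 g2 g3 g4
                exact T.n2 a ha a' ha' w hw v hvU Y hY g1 g2 (lt_of_le_of_lt g3 h3) hvY g4 hsY
              · intro e' he'
                exact T.cmp he he' h2 hbu
          have hce : v ≤ T.cc e := by
            have := T.b4 e heD Y hY heY
            rwa [ht'] at this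
          have hse : T.s ≤ T.cc e := T.cs e heD
          have hece : e ≤ T.cc e := hes.trans hse
          obtain ⟨Z, hZ⟩ : ∃ Z : P, T.ExU e Z := T.dual.exists_exit e heD hece
          have hZU : Z ∈ T.U := hZ.memD
          have hcZ : T.cc e ≤ Z := (T.dual.exit_le hZ hece).1
          have hvZ : v ≤ Z := hce.trans hcZ
          have hsZ : T.s ≤ Z := hse.trans hcZ
          have hcomp : Z ≤ Y ∨ Y ≤ Z := by
            rcases T.dual.cmp (v := e) (w := d) hZ hex' hlt.le
              (show d ≤ T.cc e from hds.trans hse) with h | h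
            · exact Or.inr h
            · exact Or.inl h
          have hZv : Z = v := by
            by_contra hne
            have hvZ' : v < Z := lt_of_le_of_ne hvZ (Ne.symm hne)
            rcases eq_or_ne Z Y with hZY | hZY
            · subst hZY
              refine T.zero heD hY hes hsY heY ?_ ?_ ?_ ?_ ?_ ?_ hZ
              · rw [ht']; exact hvU
              · rw [ht']; exact hvY
              · rw [ht']; exact hev
              · rw [ht']; exact huD
              · rw [ht']; exact hu1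
              · rw [ht']; exact h3
            · rcases hcomp with h | h
              · exact T.n2 e heD _ huD v hvU Z hZU Y hY hu1 h3 hvZ' (lt_of_le_of_ne h hZY) hes hsY
              · exact T.n2 e heD _ huD v hvU Y hY Z hZU hu1 h3 hvY
                  (lt_of_le_of_ne h (Ne.symm hZY)) hes hsZ
          subst hZv
          refine ⟨e, heD, hlt, hdv, hvY, ⟨hes, hsZ, hev, he, hZ⟩, huD, hu1, h3, ?_⟩
          by_contra hne
          exact T.mid heD huD hZU hY hu1 (lt_of_le_of_ne hp1 (Ne.symm hne)) hp3 hvY hes hsY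
        · exact (T.mid heD hd hvU hY hlt ht ht' hvY hes hsY).elim

/-- the middle point is `s` -/
theorem Dat.key2 (T : Dat P) {d Y : P} (hp : T.Pair d Y) (hvU : T.bb d Y ∈ T.U) :
    T.s = T.bb d Y := by
  obtain ⟨e, heD, hed, hdv, hvY, hpe, huD, heu, huv, hdu⟩ := T.key hp hvU
  obtain ⟨Z, hZU, hZ1, -, -, hpZ, -, -, -, hZu⟩ :=
    T.dual.key (d := T.bb d Y) (Y := e) hpe.dual huD
  have hd : d ∈ T.D := hp.ex.memD
  have hY : Y ∈ T.U := hp.ex.memU
  have hus : T.bb e (T.bb d Y) ≤ T.s := hpZ.sY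
  have hsv : T.s ≤ T.bb d Y := hpe.sY
  by_contra hne
  have hsv' : T.s < T.bb d Y := lt_of_le_of_ne hsv hne
  rcases eq_or_lt_of_le hus with h | h
  · have hdu' : d ≤ T.bb e (T.bb d Y) := h ▸ hp.ds
    rcases eq_or_lt_of_le hdu' with h2 | h2
    · exact T.bb_ne_x hd hvU hdv (hdu.trans h2.symm)
    · exact T.n1 e heD d hd _ huD _ hvU Y hY hed h2 huv hvY hpe.ds hp.sY
  · exact T.mid heD huD hvU hY heu h hsv' hvY hpe.ds hp.sY

theorem Dat.pair_upper (T : Dat P) {d Y : P} (hp : T.Pair d Y) (hvU : T.bb d Y ∈ T.U) :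
    False := by
  have h1 := T.key2 hp hvU
  obtain ⟨e, heD, hed, hdv, hvY, hpe, huD, heu, huv, hdu⟩ := T.key hp hvU
  have h2 : T.s = T.bb e (T.bb d Y) := T.dual.key2 (d := T.bb d Y) (Y := e) hpe.dual huD
  rw [← h2, ← h1] at huv
  exact lt_irrefl _ huv

theorem Dat.pair (T : Dat P) {d Y : P} (hp : T.Pair d Y) : False := by
  rcases T.cov (T.bb d Y) with h | h
  · exact T.dual.pair_upper (d := Y) (Y := d) hp.dual h
  · exact T.pair_upper hp h

theorem Dat.upper (T : Dat P) (hs : T.s ∈ T.U) : False := by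
  have h1 : T.be T.s ≤ T.s := T.bs _ hs
  obtain ⟨d, hd⟩ := T.exists_exit _ hs h1
  have hdD : d ∈ T.D := hd.memD
  have hds : d < T.s := T.exit_lt hd h1
  have h2 : T.s ≤ T.cc d := T.cs d hdD
  have h3 : d ≤ T.cc d := hds.le.trans h2
  obtain ⟨Y, hY⟩ : ∃ Y : P, T.ExU d Y := T.dual.exists_exit d hdD h3
  have hYU : Y ∈ T.U := hY.memD
  have hcY : T.cc d ≤ Y := (T.dual.exit_le hY h3).1
  have hsY : T.s ≤ Y := h2.trans hcY
  have h5 : T.be Y ≤ T.s := T.bs Y hYU
  have h6 : T.be Y ≤ Y := h5.trans hsY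
  have hdY : d < Y := lt_of_lt_of_le hds hsY
  obtain ⟨e, he⟩ := T.exists_exit Y hYU h6
  have heD : e ∈ T.D := he.memD
  have hebY : e ≤ T.be Y := (T.exit_le he h6).1
  have hes : e < T.s := lt_of_le_of_ne (hebY.trans h5) (T.ne heD hs)
  rcases eq_or_ne e d with hed | hed
  · subst hed
    exact T.pair ⟨hds.le, hsY, hdY, he, hY⟩
  have hsY' : T.s < Y := by
    refine lt_of_le_of_ne hsY ?_
    intro h
    rw [← h] at he
    exact hed (T.uniqD he hd)
  have hcmp : e ≤ d ∨ d ≤ e := T.cmp he hd hsY h5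
  have h7 : T.s ≤ T.cc e := T.cs e heD
  have h8 : e ≤ T.cc e := hes.le.trans h7
  obtain ⟨Z, hZ⟩ : ∃ Z : P, T.ExU e Z := T.dual.exists_exit e heD h8
  have hZU : Z ∈ T.U := hZ.memD
  have hcZ : T.cc e ≤ Z := (T.dual.exit_le hZ h8).1
  have hsZ : T.s ≤ Z := h7.trans hcZ
  rcases eq_or_ne Z Y with hZY | hZY
  · subst hZY
    exact T.pair ⟨hes.le, hsY, hes.trans_le hsY, he, hZ⟩
  have hcomp : Z ≤ Y ∨ Y ≤ Z := by
    rcases hcmp with h | h
    · rcases T.dual.cmp (v := e) (w := d) hZ hY h
        (show d ≤ T.cc e from hds.le.trans h7) with g | g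
      · exact Or.inr g
      · exact Or.inl g
    · rcases T.dual.cmp (v := d) (w := e) hY hZ h
        (show e ≤ T.cc d from hes.le.trans h2) with g | g
      · exact Or.inl g
      · exact Or.inr g
  have hZs : Z = T.s := by
    by_contra hne
    have hsZ' : T.s < Z := lt_of_le_of_ne hsZ (Ne.symm hne)
    rcases hcmp with h | h
    · have h' : e < d := lt_of_le_of_ne h hed
      rcases hcomp with g | g
      · exact T.n2 e heD d hdD _ hs Z hZU Y hYU h' hds hsZ' (lt_of_le_of_ne g hZY) hes.le hsY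
      · exact T.n2 e heD d hdD _ hs Y hYU Z hZU h' hds hsY' (lt_of_le_of_ne g (Ne.symm hZY))
          hes.le hsZ
    · have h' : d < e := lt_of_le_of_ne h (Ne.symm hed)
      rcases hcomp with g | g
      · exact T.n2 d hdD e heD _ hs Z hZU Y hYU h' hes hsZ' (lt_of_le_of_ne g hZY) hds.le hsY
      · exact T.n2 d hdD e heD _ hs Y hYU Z hZU h' hes hsY' (lt_of_le_of_ne g (Ne.symm hZY))
          hds.le hsZ
  have hce : T.cc e = T.s := le_antisymm (hZs ▸ hcZ) h7
  rcases hcmp with h | h
  · have h' : e < d := lt_of_le_of_ne h hed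
    have hbs : T.be T.s = d := by
      rcases Ex.elim' hd with ⟨g1, g2⟩ | ⟨g1, g2⟩
      · exact g2.symm
      · exfalso
        exact T.n2 e heD d hdD _ g1 _ hs Y hYU h'
          (lt_of_le_of_ne (T.exit_le hd h1).1 (T.ne hdD g1))
          (lt_of_le_of_ne h1 (T.be_ne hs)) hsY' hes.le hsY
    have hdbY : d ≤ T.be Y := hbs ▸ T.bm _ hs Y hYU hsY
    rcases Ex.elim' he with ⟨g1, g2⟩ | ⟨g1, g2⟩
    · rw [← g2] at hdbY
      exact absurd (lt_of_lt_of_le h' hdbY) (lt_irrefl _)
    · rcases eq_or_lt_of_le h5 with g3 | g3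
      · rw [g3] at g2
        exact hed (T.uniqD g2 hd)
      · exact T.n2 e heD d hdD _ g1 _ hs Y hYU h' (lt_of_le_of_ne hdbY (T.ne hdD g1)) g3 hsY'
          hes.le hsY
  · have hcd : T.cc d = T.s := le_antisymm (hce ▸ T.cm d hdD e heD h) h2
    have h9 : T.ExU d (T.cc d) := Ex.one hdD (by rw [hcd]; exact hs)
    have h10 := T.uniqU h9 hY
    rw [hcd] at h10
    exact hsY'.ne h10

/-- there are no such data -/
theorem Dat.false (T : Dat P) : False := by
  rcases T.cov T.s with h | h
  · exact T.dual.upper h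
  · exact T.upper h

end Pool.Agent.Helper31.DV
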