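import Pool.Agent.Helper31.DV.Defs

/-! Project DV: the data of a special element, on the poset of the values of the map. -/

set_option autoImplicit false

universe u

namespace Pool.Agent.Helper31.DV

open Pool.Agent.Helper73.DU

/-- `s ∧ x` exists -/
abbrev Mt {P : Type u} [PartialOrder P] (s x : P) : Prop := ∃ z : P, IsGLB ({s, x} : Set P) z

/-- `s ∨ x` exists -/
abbrev Jn {P : Type u} [PartialOrder P] (s x : P) : Prop := ∃ z : P, IsLUB ({s, x} : Set P) z

/-- the meet, with junk value -/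
noncomputable def M {P : Type u} [PartialOrder P] (a b : P) : P :=
  open Classical in if h : ∃ z : P, IsGLB ({a, b} : Set P) z then h.choose else a

theorem M_spec {P : Type u} [PartialOrder P] {a b : P} (h : ∃ z : P, IsGLB ({a, b} : Set P) z) :
    IsGLB ({a, b} : Set P) (M a b) := by
  unfold M
  rw [dif_pos h]
  exact h.choose_spec

theorem glb_left {P : Type u} [PartialOrder P] {a b z : P} (h : IsGLB ({a, b} : Set P) z) :
    z ≤ a := h.1 (by simp)

theorem glb_right {P : Type u} [PartialOrder P] {a b z : P} (h : IsGLB ({a, b} : Set P) z) :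
    z ≤ b := h.1 (by simp)

theorem le_glb {P : Type u} [PartialOrder P] {a b z t : P} (h : IsGLB ({a, b} : Set P) z)
    (ha : t ≤ a) (hb : t ≤ b) : t ≤ z := by
  refine h.2 ?_
  rintro y (rfl | rfl)
  · exact ha
  · exact hb

/-- a chain of values of the type of the first kind or of the second kind -/
def Bad {P : Type u} [PartialOrder P] (s : P) (f : P → P) : Prop :=
  (∃ a a' a'' c e : P, a ∈ Set.range f ∧ a' ∈ Set.range f ∧ a'' ∈ Set.range f ∧
    c ∈ Set.range f ∧ e ∈ Set.range f ∧ a < a' ∧ a' < a'' ∧ a'' < c ∧ c < e ∧ a ≤ f s ∧ f s ≤ e ∧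
    ¬ Mt s a ∧ ¬ Mt s a' ∧ ¬ Mt s a'' ∧ Mt s c ∧ ¬ Jn s e) ∨
  (∃ a a' c c' e : P, a ∈ Set.range f ∧ a' ∈ Set.range f ∧ c ∈ Set.range f ∧
    c' ∈ Set.range f ∧ e ∈ Set.range f ∧ a < a' ∧ a' < c ∧ c < c' ∧ c' < e ∧ a ≤ f s ∧ f s ≤ e ∧
    ¬ Mt s a ∧ ¬ Mt s a' ∧ Mt s c ∧ Mt s c' ∧ ¬ Jn s e)

theorem wf_sub {P : Type u} {p : P → Prop} {r : P → P → Prop} (h : WellFounded r) :
    WellFounded (fun a b : {x : P // p x} => r a.1 b.1) := InvImage.wf Subtype.val h

/-- the data -/
theorem exists_dat (P : Type u) [PartialOrder P]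
    (hfin : ∀ C : Set P, IsChain (· ≤ ·) C → C.Finite) (s : P)
    (h1 : ∀ x : P, Jn s x ∨ Mt s x)
    (h2 : ∀ x y : P, x < y → (¬ Mt s x) → ∀ m : P, IsGLB ({s, y} : Set P) m →
      ∃ z : P, IsLUB ({m, x} : Set P) z)
    (f : P → P) (hf : Monotone f) (hbad : ¬ Bad s f) (hno : ¬ ∃ x, f x = x) :
    Nonempty (Dat {x : P // x ∈ Set.range f}) := by
  classical
  have hlt := wfF_lt hfin
  have hgt := wfF_gt hfin
  have hnle := no_le f hf hgt hno
  have hnge := no_ge f hf hlt hno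
  let V := {x : P // x ∈ Set.range f}
  let D : Set V := {x | (¬ Mt s x.1) ∨ ∀ y : V, x ≤ y → Jn s y.1}
  let F : P → V := fun x => ⟨f x, x, rfl⟩
  have hF : ∀ {x y : P}, x ≤ y → F x ≤ F y := fun {x y} h => hf h
  -- points off D
  have hU : ∀ w : V, w ∈ Dᶜ → Mt s w.1 ∧ ∃ y : V, w ≤ y ∧ ¬ Jn s y.1 := by
    intro w hw
    by_contra h
    apply hw
    by_cases h3 : Mt s w.1
    · right
      intro y hy
      by_contra h4
      exact h ⟨h3, y, hy, h4⟩
    · exact Or.inl h3
  have hD : ∀ x : V, x ∈ D → Jn s x.1 := by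
    intro x hx
    rcases hx with hx | hx
    · rcases h1 x.1 with h | h
      · exact h
      · exact absurd h hx
    · exact hx x le_rfl
  have hlow : ∀ x w : V, x ∈ D → w ∈ Dᶜ → x < w → ¬ Mt s x.1 := by
    intro x w hx hw hxw
    rcases hx with hx | hx
    · exact hx
    · exact (hw (Or.inr fun y hy => hx y (hxw.le.trans hy))).elim
  have hMs : ∀ w : V, w ∈ Dᶜ → IsGLB ({s, w.1} : Set P) (M s w.1) := fun w hw =>
    M_spec (hU w hw).1
  have hJs : ∀ x : V, x ∈ D → IsLUB ({s, x.1} : Set P) (J s x.1) := fun x hx => J_spec (hD x hx)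
  have hJb : ∀ x : V, x ∈ D → ∀ w : V, w ∈ Dᶜ → x < w →
      IsLUB ({M s w.1, x.1} : Set P) (J (M s w.1) x.1) := by
    intro x hx w hw hxw
    exact J_spec (h2 x.1 w.1 hxw (hlow x w hx hw hxw) _ (hMs w hw))
  have hMm : ∀ v w : V, v ∈ Dᶜ → w ∈ Dᶜ → v ≤ w → M s v.1 ≤ M s w.1 := by
    intro v w hv hw h
    exact le_glb (hMs w hw) (glb_left (hMs v hv)) ((glb_right (hMs v hv)).trans h)
  refine ⟨{ f := fun x => F x.1, s := F s, D := D, U := Dᶜ, be := fun w => F (M s w.1),
            cc := fun x => F (J s x.1), bb := fun x w => F (J (M s w.1) x.1),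
            wf := wf_sub hlt, wg := wf_sub hgt,
            nle := fun x => hnle x.1, nge := fun x => hnge x.1,
            cov := fun y => Classical.em (y ∈ D), dis := fun x hx hx' => hx' hx,
            bs := ?_, bw := ?_, bm := ?_, cs := ?_, cx := ?_, cm := ?_, b1 := ?_, b2 := ?_,
            b3 := ?_, b4 := ?_, b5 := ?_, b6 := ?_, n1 := ?_, n2 := ?_ }⟩
  · exact fun w hw => hF (glb_left (hMs w hw))
  · exact fun w hw => hF (glb_right (hMs w hw))
  · exact fun v hv w hw h => hF (hMm v w hv hw h)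
  · exact fun x hx => hF (lub_left (hJs x hx))
  · exact fun x hx => hF (lub_right (hJs x hx))
  · exact fun x hx y hy h => hF (lub_le (hJs x hx) (lub_left (hJs y hy))
      (le_trans h (lub_right (hJs y hy))))
  · exact fun x hx w hw h => hF (lub_left (hJb x hx w hw h))
  · exact fun x hx w hw h => hF (lub_right (hJb x hx w hw h))
  · exact fun x hx w hw h => hF (lub_le (hJb x hx w hw h) (glb_right (hMs w hw)) h.le)
  · exact fun x hx w hw h => hF (lub_le (hJb x hx w hw h)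
      ((glb_left (hMs w hw)).trans (lub_left (hJs x hx))) (lub_right (hJs x hx)))
  · intro x hx v hv w hw h h'
    exact hF (lub_le (hJb x hx v hv h) ((hMm v w hv hw h').trans
      (lub_left (hJb x hx w hw (h.trans_le h')))) (lub_right (hJb x hx w hw (h.trans_le h'))))
  · intro w hw x hx y hy h h'
    exact hF (lub_le (hJb x hx w hw (h'.trans_lt h)) (lub_left (hJb y hy w hw h))
      (le_trans h' (lub_right (hJb y hy w hw h))))
  · intro a ha a' ha' a'' ha'' c hc c' hc' g1 g2 g3 g4 g5 g6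
    obtain ⟨-, e, he, hne⟩ := hU c' hc'
    refine hbad (Or.inl ⟨a.1, a'.1, a''.1, c.1, e.1, a.2, a'.2, a''.2, c.2, e.2, g1, g2, g3,
      lt_of_lt_of_le g4 he, g5, le_trans g6 he, hlow a c ha hc (g1.trans (g2.trans g3)),
      hlow a' c ha' hc (g2.trans g3), hlow a'' c ha'' hc g3, (hU c hc).1, hne⟩)
  · intro a ha a' ha' c hc c' hc' c'' hc'' g1 g2 g3 g4 g5 g6
    obtain ⟨-, e, he, hne⟩ := hU c'' hc''
    refine hbad (Or.inr ⟨a.1, a'.1, c.1, c'.1, e.1, a.2, a'.2, c.2, c'.2, e.2, g1, g2, g3,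
      lt_of_lt_of_le g4 he, g5, le_trans g6 he, hlow a c ha hc (g1.trans g2),
      hlow a' c ha' hc g2, (hU c hc).1, (hU c' hc').1, hne⟩)

end Pool.Agent.Helper31.DV
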