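import Pool.Agent.Helper31.DV.Fin
import Pool.Agent.Helper31.DV.Special

/-! Project DV: the theorem on the values of the map, for a set `A` of values and a map `b` off
`A`, and the case of a special element. -/

set_option autoImplicit false

universe u

namespace Pool.Agent.Helper31.DV

open Pool.Agent.Helper73.DU

/-- the value form -/
theorem value_form (P : Type u) [PartialOrder P]
    (hfin : ∀ C : Set P, IsChain (· ≤ ·) C → C.Finite) (s : P) (f : P → P) (hf : Monotone f)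
    (A : Set P) (b : P → P)
    (hj : ∀ x ∈ Set.range f, x ∈ A → ∃ z : P, IsLUB ({s, x} : Set P) z)
    (hbs : ∀ w ∈ Set.range f, w ∉ A → b w ≤ s ∧ b w ≤ w)
    (hbm : ∀ v ∈ Set.range f, ∀ w ∈ Set.range f, v ∉ A → w ∉ A → v ≤ w → b v ≤ b w)
    (hi : ∀ x ∈ Set.range f, ∀ w ∈ Set.range f, x ∈ A → w ∉ A → x < w → b w < s →
      ∃ z : P, IsLUB ({b w, x} : Set P) z)
    (h1 : ∀ x ∈ Set.range f, ∀ x' ∈ Set.range f, ∀ x'' ∈ Set.range f, ∀ w ∈ Set.range f,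
      ∀ w' ∈ Set.range f, x ∈ A → x' ∈ A → x'' ∈ A → w ∉ A → w' ∉ A → x < x' → x' < x'' →
      x'' < w → w < w' → x ≤ f s → ¬ f s ≤ w')
    (h2 : ∀ x ∈ Set.range f, ∀ x' ∈ Set.range f, ∀ w ∈ Set.range f, ∀ w' ∈ Set.range f,
      ∀ w'' ∈ Set.range f, x ∈ A → x' ∈ A → w ∉ A → w' ∉ A → w'' ∉ A → x < x' → x' < w →
      w < w' → w' < w'' → x ≤ f s → ¬ f s ≤ w'') :
    ∃ x, f x = x := by
  classical
  by_contra hno
  have hlt := wfF_lt hfin
  have hgt := wfF_gt hfin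
  have hnle := no_le f hf hgt hno
  have hnge := no_ge f hf hlt hno
  let V := {x : P // x ∈ Set.range f}
  let D : Set V := {x | x.1 ∈ A}
  let F : P → V := fun x => ⟨f x, x, rfl⟩
  have hF : ∀ {x y : P}, x ≤ y → F x ≤ F y := fun {x y} h => hf h
  have hJs : ∀ x : V, x ∈ D → IsLUB ({s, x.1} : Set P) (J s x.1) := fun x hx =>
    J_spec (hj x.1 x.2 hx)
  have hJb : ∀ x : V, x ∈ D → ∀ w : V, w ∈ Dᶜ → x < w →
      IsLUB ({b w.1, x.1} : Set P) (J (b w.1) x.1) := by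
    intro x hx w hw hxw
    rcases eq_or_lt_of_le (hbs w.1 w.2 hw).1 with he | hl
    · rw [he]
      exact hJs x hx
    · exact J_spec (hi x.1 x.2 w.1 w.2 hx hw hxw hl)
  refine Dat.false (P := V)
    { f := fun x => F x.1, s := F s, D := D, U := Dᶜ, be := fun w => F (b w.1),
      cc := fun x => F (J s x.1), bb := fun x w => F (J (b w.1) x.1),
      wf := wf_sub hlt, wg := wf_sub hgt,
      nle := fun x => hnle x.1, nge := fun x => hnge x.1,
      cov := fun y => Classical.em (y ∈ D), dis := fun x hx hx' => hx' hx,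
      bs := ?_, bw := ?_, bm := ?_, cs := ?_, cx := ?_, cm := ?_, b1 := ?_, b2 := ?_,
      b3 := ?_, b4 := ?_, b5 := ?_, b6 := ?_, n1 := ?_, n2 := ?_ }
  · exact fun w hw => hF (hbs w.1 w.2 hw).1
  · exact fun w hw => hF (hbs w.1 w.2 hw).2
  · exact fun v hv w hw h => hF (hbm v.1 v.2 w.1 w.2 hv hw h)
  · exact fun x hx => hF (lub_left (hJs x hx))
  · exact fun x hx => hF (lub_right (hJs x hx))
  · exact fun x hx y hy h => hF (lub_le (hJs x hx) (lub_left (hJs y hy))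
      (le_trans h (lub_right (hJs y hy))))
  · exact fun x hx w hw h => hF (lub_left (hJb x hx w hw h))
  · exact fun x hx w hw h => hF (lub_right (hJb x hx w hw h))
  · exact fun x hx w hw h => hF (lub_le (hJb x hx w hw h) (hbs w.1 w.2 hw).2 h.le)
  · exact fun x hx w hw h => hF (lub_le (hJb x hx w hw h)
      ((hbs w.1 w.2 hw).1.trans (lub_left (hJs x hx))) (lub_right (hJs x hx)))
  · intro x hx v hv w hw h h'
    exact hF (lub_le (hJb x hx v hv h) ((hbm v.1 v.2 w.1 w.2 hv hw h').trans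
      (lub_left (hJb x hx w hw (h.trans_le h')))) (lub_right (hJb x hx w hw (h.trans_le h'))))
  · intro w hw x hx y hy h h'
    exact hF (lub_le (hJb x hx w hw (h'.trans_lt h)) (lub_left (hJb y hy w hw h))
      (le_trans h' (lub_right (hJb y hy w hw h))))
  · intro a ha a' ha' a'' ha'' c hc c' hc' g1 g2 g3 g4 g5 g6
    exact h1 a.1 a.2 a'.1 a'.2 a''.1 a''.2 c.1 c.2 c'.1 c'.2 ha ha' ha'' hc hc' g1 g2 g3 g4 g5 g6
  · intro a ha a' ha' c hc c' hc' c'' hc'' g1 g2 g3 g4 g5 g6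
    exact h2 a.1 a.2 a'.1 a'.2 c.1 c.2 c'.1 c'.2 c''.1 c''.2 ha ha' hc hc' hc'' g1 g2 g3 g4 g5 g6

/-- the order dual of the value form -/
theorem value_form_dual (P : Type u) [PartialOrder P]
    (hfin : ∀ C : Set P, IsChain (· ≤ ·) C → C.Finite) (s : P) (f : P → P) (hf : Monotone f)
    (A : Set P) (b : P → P)
    (hj : ∀ x ∈ Set.range f, x ∈ A → ∃ z : P, IsGLB ({s, x} : Set P) z)
    (hbs : ∀ w ∈ Set.range f, w ∉ A → s ≤ b w ∧ w ≤ b w)
    (hbm : ∀ v ∈ Set.range f, ∀ w ∈ Set.range f, v ∉ A → w ∉ A → v ≤ w → b v ≤ b w)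
    (hi : ∀ x ∈ Set.range f, ∀ w ∈ Set.range f, x ∈ A → w ∉ A → w < x → s < b w →
      ∃ z : P, IsGLB ({b w, x} : Set P) z)
    (h1 : ∀ x ∈ Set.range f, ∀ x' ∈ Set.range f, ∀ x'' ∈ Set.range f, ∀ w ∈ Set.range f,
      ∀ w' ∈ Set.range f, x ∈ A → x' ∈ A → x'' ∈ A → w ∉ A → w' ∉ A → x' < x → x'' < x' →
      w < x'' → w' < w → f s ≤ x → ¬ w' ≤ f s)
    (h2 : ∀ x ∈ Set.range f, ∀ x' ∈ Set.range f, ∀ w ∈ Set.range f, ∀ w' ∈ Set.range f,
      ∀ w'' ∈ Set.range f, x ∈ A → x' ∈ A → w ∉ A → w' ∉ A → w'' ∉ A → x' < x → w < x' →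
      w' < w → w'' < w' → f s ≤ x → ¬ w'' ≤ f s) :
    ∃ x, f x = x := by
  exact value_form Pᵒᵈ (chainsF_dual hfin) s f (fun x y h => hf h) A b hj hbs
    (fun v hv w hw hv' hw' h => hbm w hw v hv hw' hv' h) hi h1 h2

/-- a special element, in terms of the values -/
theorem special_value (P : Type u) [PartialOrder P]
    (hfin : ∀ C : Set P, IsChain (· ≤ ·) C → C.Finite) (s : P)
    (h1 : ∀ x : P, (∃ z : P, IsLUB ({s, x} : Set P) z) ∨ (∃ z : P, IsGLB ({s, x} : Set P) z))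
    (h2 : ∀ x y : P, x < y → (¬ ∃ z : P, IsGLB ({s, x} : Set P) z) →
      ∀ m : P, IsGLB ({s, y} : Set P) m → ∃ z : P, IsLUB ({m, x} : Set P) z)
    (f : P → P) (hf : Monotone f)
    (hc1 : ∀ a ∈ Set.range f, ∀ a' ∈ Set.range f, ∀ a'' ∈ Set.range f, ∀ c ∈ Set.range f,
      ∀ e ∈ Set.range f, a < a' → a' < a'' → a'' < c → c < e → a ≤ f s → f s ≤ e →
      (¬ ∃ z : P, IsGLB ({s, a} : Set P) z) → (¬ ∃ z : P, IsGLB ({s, a'} : Set P) z) →
      (¬ ∃ z : P, IsGLB ({s, a''} : Set P) z) → (∃ z : P, IsGLB ({s, c} : Set P) z) →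
      ∃ z : P, IsLUB ({s, e} : Set P) z)
    (hc2 : ∀ a ∈ Set.range f, ∀ a' ∈ Set.range f, ∀ c ∈ Set.range f, ∀ c' ∈ Set.range f,
      ∀ e ∈ Set.range f, a < a' → a' < c → c < c' → c' < e → a ≤ f s → f s ≤ e →
      (¬ ∃ z : P, IsGLB ({s, a} : Set P) z) → (¬ ∃ z : P, IsGLB ({s, a'} : Set P) z) →
      (∃ z : P, IsGLB ({s, c} : Set P) z) → (∃ z : P, IsGLB ({s, c'} : Set P) z) →
      ∃ z : P, IsLUB ({s, e} : Set P) z) :
    ∃ x, f x = x := by
  by_contra hno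
  obtain ⟨T⟩ := exists_dat P hfin s h1 h2 f hf (by
    rintro (⟨a, a', a'', c, e, ha, ha', ha'', hc, he, g1, g2, g3, g4, g5, g6, k1, k2, k3, k4, k5⟩ |
      ⟨a, a', c, c', e, ha, ha', hc, hc', he, g1, g2, g3, g4, g5, g6, k1, k2, k3, k4, k5⟩)
    · exact k5 (hc1 a ha a' ha' a'' ha'' c hc e he g1 g2 g3 g4 g5 g6 k1 k2 k3 k4)
    · exact k5 (hc2 a ha a' ha' c hc c' hc' e he g1 g2 g3 g4 g5 g6 k1 k2 k3 k4)) hno
  exact T.false

end Pool.Agent.Helper31.DV
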